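import Mathlib
import Pool.Agent.H744R2.KZ.Props

open scoped ComplexOrder InnerProductSpace ComplexConjugate Topology
open Finset Filter

noncomputable section

namespace H744R2.KZ
open H759R2.Kad
universe u

namespace C_exhaux

section hil

variable {K : Type*} [NormedAddCommGroup K] [InnerProductSpace ℂ K] [CompleteSpace K]

theorem inner_pr {p : K →L[ℂ] K} (hp : star p = p) (x y : K) :
    ⟪p x, y⟫_ℂ = ⟪x, p y⟫_ℂ := by
  have h := ContinuousLinearMap.adjoint_inner_left p y x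
  rw [← ContinuousLinearMap.star_eq_adjoint, hp] at h
  exact h

theorem norm_pr_le {p : K →L[ℂ] K} (hp : star p = p) (hpp : p * p = p) (x : K) :
    ‖p x‖ ≤ ‖x‖ := by
  have h1 : ⟪p x, p x⟫_ℂ = ⟪x, p x⟫_ℂ := by
    rw [inner_pr hp, ← ContinuousLinearMap.mul_apply, hpp]
  have h2 : ‖p x‖ ^ 2 ≤ ‖x‖ * ‖p x‖ := by
    have h3 : ‖⟪p x, p x⟫_ℂ‖ = ‖p x‖ ^ 2 := by
      rw [inner_self_eq_norm_sq_to_K]
      simp
    rw [← h3, h1]
    exact norm_inner_le_norm _ _
  by_contra hlt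
  push Not at hlt
  nlinarith [norm_nonneg x]

theorem norm_add_sq_of_inner_zero {x y : K} (h : ⟪x, y⟫_ℂ = 0) :
    ‖x + y‖ ^ 2 = ‖x‖ ^ 2 + ‖y‖ ^ 2 := by
  have := norm_add_sq_eq_norm_sq_add_norm_sq_of_inner_eq_zero x y h
  nlinarith

theorem two_pr {p1 p2 b : K →L[ℂ] K} {C : ℝ} (hC : 0 ≤ C) (h1 : star p1 = p1)
    (h11 : p1 * p1 = p1) (h2 : star p2 = p2) (h22 : p2 * p2 = p2) (h12 : p1 * p2 = 0)
    (hb1 : b * p1 = p1 * b) (hb2 : b * p2 = p2 * b)
    (hn1 : ∀ x, ‖b (p1 x)‖ ≤ C * ‖p1 x‖) (hn2 : ∀ x, ‖b (p2 x)‖ ≤ C * ‖p2 x‖) :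
    ‖b * (p1 + p2)‖ ≤ C := by
  refine ContinuousLinearMap.opNorm_le_bound _ hC fun x => ?_
  have e0 : (b * (p1 + p2)) x = b (p1 x) + b (p2 x) := by
    simp
  have horth : ∀ u v, ⟪p1 u, p2 v⟫_ℂ = 0 := by
    intro u v
    rw [inner_pr h1, ← ContinuousLinearMap.mul_apply, h12]
    simp
  have e1 : b (p1 x) = p1 (b x) := by
    have := congrArg (fun T : K →L[ℂ] K => T x) hb1
    simpa using this
  have e2 : b (p2 x) = p2 (b x) := by
    have := congrArg (fun T : K →L[ℂ] K => T x) hb2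
    simpa using this
  have s1 : ‖b (p1 x) + b (p2 x)‖ ^ 2 = ‖b (p1 x)‖ ^ 2 + ‖b (p2 x)‖ ^ 2 := by
    apply norm_add_sq_of_inner_zero
    rw [e1, e2]; exact horth _ _
  have s2 : ‖p1 x + p2 x‖ ^ 2 = ‖p1 x‖ ^ 2 + ‖p2 x‖ ^ 2 :=
    norm_add_sq_of_inner_zero (horth _ _)
  have h21 : p2 * p1 = 0 := by
    have := congrArg star h12
    rwa [star_mul, h1, h2, star_zero] at this
  have hs : ‖p1 x + p2 x‖ ≤ ‖x‖ := by
    have := norm_pr_le (p := p1 + p2) (by rw [star_add, h1, h2])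
      (by rw [add_mul, mul_add, mul_add, h11, h22, h12, h21]; simp) x
    simpa using this
  rw [e0]
  have t1 : ‖b (p1 x)‖ ^ 2 ≤ (C * ‖p1 x‖) ^ 2 := pow_le_pow_left₀ (norm_nonneg _) (hn1 x) 2
  have t2 : ‖b (p2 x)‖ ^ 2 ≤ (C * ‖p2 x‖) ^ 2 := pow_le_pow_left₀ (norm_nonneg _) (hn2 x) 2
  have t3 : ‖b (p1 x) + b (p2 x)‖ ^ 2 ≤ (C * ‖x‖) ^ 2 := by
    rw [s1]
    have t4 : (C * ‖p1 x‖) ^ 2 + (C * ‖p2 x‖) ^ 2 = (C * ‖p1 x + p2 x‖) ^ 2 := by
      rw [mul_pow, mul_pow, mul_pow, s2]; ring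
    have t5 : (C * ‖p1 x + p2 x‖) ^ 2 ≤ (C * ‖x‖) ^ 2 :=
      pow_le_pow_left₀ (by positivity) (mul_le_mul_of_nonneg_left hs hC) 2
    linarith
  exact le_of_sq_le_sq t3 (by positivity)
where
  le_of_sq_le_sq {a c : ℝ} (h : a ^ 2 ≤ c ^ 2) (hc : 0 ≤ c) : a ≤ c := (abs_le_of_sq_le_sq' h hc).2

end hil

section dgs

variable {H : Type u} [NormedAddCommGroup H] [InnerProductSpace ℂ H] [CompleteSpace H]

theorem dg_mul (n : ℕ) (x y : H →L[ℂ] H) : dg n (x * y) = dg n x * dg n y := by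
  ext v i
  simp [dg_apply]

theorem dg_add (n : ℕ) (x y : H →L[ℂ] H) : dg n (x + y) = dg n x + dg n y := by
  ext v i
  simp [dg_apply]

theorem dg_sub (n : ℕ) (x y : H →L[ℂ] H) : dg n (x - y) = dg n x - dg n y := by
  ext v i
  simp [dg_apply]

theorem dg_zero (n : ℕ) : dg n (0 : H →L[ℂ] H) = 0 := by
  ext v i
  simp [dg_apply]

theorem dg_star (n : ℕ) (x : H →L[ℂ] H) : star (dg n x) = dg n (star x) := by
  rw [ContinuousLinearMap.star_eq_adjoint, eq_comm, ContinuousLinearMap.eq_adjoint_iff]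
  intro v w
  rw [PiLp.inner_apply, PiLp.inner_apply]
  refine Finset.sum_congr rfl fun i _ => ?_
  rw [dg_apply, dg_apply, ContinuousLinearMap.star_eq_adjoint,
    ContinuousLinearMap.adjoint_inner_left]

end dgs

end C_exhaux

open C_exhaux

theorem prove_C_exh : C_exh.{u} := by
  intro H _ _ _ M n b C hC hbc hex
  set S : Set (H →L[ℂ] H) := {z | IsCP M z ∧ ‖b * dg n z‖ ≤ C} with hS
  have hzS : (0 : H →L[ℂ] H) ∈ S := by
    refine ⟨⟨⟨star_zero _, by simp⟩, zero_mem M, by simp⟩, ?_⟩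
    rw [dg_zero]; simpa using hC
  -- bound on the range
  have hbd : ∀ z ∈ S, ∀ x, ‖b (dg n z x)‖ ≤ C * ‖dg n z x‖ := by
    intro z hz x
    have h1 : b (dg n z x) = (b * dg n z) (dg n z x) := by
      have : dg n z * dg n z = dg n z := by rw [← dg_mul, hz.1.1.2]
      rw [ContinuousLinearMap.mul_apply, ← ContinuousLinearMap.mul_apply (dg n z) (dg n z), this]
    rw [h1]
    exact (ContinuousLinearMap.le_opNorm _ _).trans
      (mul_le_mul_of_nonneg_right hz.2 (norm_nonneg _))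
  -- joins
  have hjoin : ∀ z1 ∈ S, ∀ z2 ∈ S, z1 + z2 - z1 * z2 ∈ S := by
    intro z1 hz1 z2 hz2
    obtain ⟨⟨⟨a1, a2⟩, a3, a4⟩, a5⟩ := hz1
    obtain ⟨⟨⟨b1, b2⟩, b3, b4⟩, b5⟩ := hz2
    have hcomm : z1 * z2 = z2 * z1 := a4 z2 b3
    have hr : ∀ x : H →L[ℂ] H, z1 * (z1 * x) = z1 * x := fun x => by rw [← mul_assoc, a2]
    have hr2 : ∀ x : H →L[ℂ] H, z2 * (z2 * x) = z2 * x := fun x => by rw [← mul_assoc, b2]
    have hr3 : ∀ x : H →L[ℂ] H, z2 * (z1 * x) = z1 * (z2 * x) := fun x => by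
      rw [← mul_assoc, ← hcomm, mul_assoc]
    refine ⟨⟨⟨?_, ?_⟩, ?_, ?_⟩, ?_⟩
    · rw [star_sub, star_add, star_mul, a1, b1, hcomm]
    · simp only [mul_sub, sub_mul, mul_add, add_mul, mul_assoc, a2, b2, ← hcomm, hr, hr2, hr3]
      abel
    · exact sub_mem (add_mem a3 b3) (mul_mem a3 b3)
    · intro a ha
      rw [sub_mul, add_mul, mul_sub, mul_add, a4 a ha, b4 a ha, mul_assoc, b4 a ha, ← mul_assoc,
        a4 a ha, mul_assoc]
    · have e : dg n (z1 + z2 - z1 * z2) = dg n z1 + dg n (z2 * (1 - z1)) := by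
        rw [← dg_add]
        congr 1
        rw [mul_sub, mul_one, ← hcomm]
        abel
      have hq : star (z2 * (1 - z1)) = z2 * (1 - z1) := by
        rw [star_mul, star_sub, star_one, a1, b1, mul_sub, sub_mul, one_mul, mul_one, hcomm]
      have hqq : z2 * (1 - z1) * (z2 * (1 - z1)) = z2 * (1 - z1) := by
        simp only [mul_sub, sub_mul, mul_one, mul_assoc, a2, b2, ← hcomm, hr, hr2, hr3]
        abel
      rw [e]
      refine two_pr hC ?_ ?_ ?_ ?_ ?_ (hbc z1 ⟨⟨a1, a2⟩, a3, a4⟩) ?_ ?_ ?_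
      · rw [dg_star, a1]
      · rw [← dg_mul, a2]
      · rw [dg_star, hq]
      · rw [← dg_mul, hqq]
      · rw [← dg_mul]
        have : z1 * (z2 * (1 - z1)) = 0 := by
          simp only [mul_sub, mul_one, ← hcomm, hr, sub_self]
        rw [this, dg_zero]
      · refine hbc _ ⟨⟨hq, hqq⟩, mul_mem b3 (sub_mem (one_mem M) a3), ?_⟩
        intro a ha
        rw [mul_assoc, sub_mul, one_mul, a4 a ha, mul_sub, b4 a ha, ← mul_assoc, b4 a ha,
          mul_assoc, mul_sub, mul_one, mul_sub, ← mul_assoc a z2 z1]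
      · exact hbd z1 ⟨⟨⟨a1, a2⟩, a3, a4⟩, a5⟩
      · intro x
        have h5 : dg n (z2 * (1 - z1)) x = dg n z2 (dg n (z2 * (1 - z1)) x) := by
          rw [← ContinuousLinearMap.mul_apply, ← dg_mul, hr2]
        rw [h5]
        exact hbd z2 ⟨⟨⟨b1, b2⟩, b3, b4⟩, b5⟩ _
  -- density
  have hdens : ∀ x : H, ∀ ε : ℝ, 0 < ε → ∃ z ∈ S, ‖x - z x‖ ≤ ε := by
    set U : Submodule ℂ H := ⨆ z : S, LinearMap.range ((z : H →L[ℂ] H) : H →ₗ[ℂ] H) with hU
    have hleft : ∀ z1 z2 : H →L[ℂ] H, z1 * z1 = z1 → ∀ x, (z1 + z2 - z1 * z2) (z1 x) = z1 x →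
        z1 x ∈ LinearMap.range ((z1 + z2 - z1 * z2 : H →L[ℂ] H) : H →ₗ[ℂ] H) :=
      fun z1 z2 _ x hx => ⟨z1 x, hx⟩
    have hdir : Directed (· ≤ ·) (fun z : S => LinearMap.range ((z : H →L[ℂ] H) : H →ₗ[ℂ] H)) := by
      rintro ⟨z1, hz1⟩ ⟨z2, hz2⟩
      have hcomm : z1 * z2 = z2 * z1 := hz1.1.2.2 z2 hz2.1.2.1
      refine ⟨⟨_, hjoin z1 hz1 z2 hz2⟩, ?_, ?_⟩
      · rintro _ ⟨x, rfl⟩
        refine ⟨z1 x, ?_⟩
        show (z1 + z2 - z1 * z2) (z1 x) = z1 x
        have : (z1 + z2 - z1 * z2) * z1 = z1 := by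
          rw [sub_mul, add_mul, hz1.1.1.2, mul_assoc, ← hcomm, ← mul_assoc, hz1.1.1.2]
          abel
        rw [← ContinuousLinearMap.mul_apply, this]
      · rintro _ ⟨x, rfl⟩
        refine ⟨z2 x, ?_⟩
        show (z1 + z2 - z1 * z2) (z2 x) = z2 x
        have : (z1 + z2 - z1 * z2) * z2 = z2 := by
          rw [sub_mul, add_mul, hz2.1.1.2, mul_assoc, hz2.1.1.2]
          abel
        rw [← ContinuousLinearMap.mul_apply, this]
    haveI : Nonempty S := ⟨⟨0, hzS⟩⟩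
    have hUmem : ∀ x, x ∈ U ↔ ∃ z ∈ S, z x = x := by
      intro x
      rw [hU, Submodule.mem_iSup_of_directed _ hdir]
      constructor
      · rintro ⟨⟨z, hz⟩, y, hy⟩
        refine ⟨z, hz, ?_⟩
        have hy' : z y = x := hy
        rw [← hy', ← ContinuousLinearMap.mul_apply, hz.1.1.2]
      · rintro ⟨z, hz, hx⟩
        exact ⟨⟨z, hz⟩, x, hx⟩
    set K : Submodule ℂ H := U.topologicalClosure with hK
    haveI : CompleteSpace K := U.isClosed_topologicalClosure.completeSpace_coe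
    have hKc : IsClosed (K : Set H) := U.isClosed_topologicalClosure
    have hrange : (K.starProjection : H →L[ℂ] H).range = K := Submodule.range_starProjection K
    have hp : IsStarProjection (K.starProjection : H →L[ℂ] H) := isStarProjection_starProjection
    have hinv : ∀ y : H →L[ℂ] H, (∀ z ∈ S, y * z = z * y) → ∀ x ∈ K, y x ∈ K := by
      intro y hy
      have h1 : U ≤ K.comap (y : H →ₗ[ℂ] H) := by
        intro x hx
        obtain ⟨z, hz, hzx⟩ := (hUmem x).1 hx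
        show y x ∈ K
        refine U.le_topologicalClosure ((hUmem _).2 ⟨z, hz, ?_⟩)
        rw [← ContinuousLinearMap.mul_apply, ← hy z hz, ContinuousLinearMap.mul_apply, hzx]
      have h2 : IsClosed ((K.comap (y : H →ₗ[ℂ] H) : Submodule ℂ H) : Set H) :=
        hKc.preimage y.continuous
      exact fun x hx => U.topologicalClosure_minimal h1 h2 hx
    have hr : K.starProjection ∈ M := by
      rw [VonNeumannAlgebra.IsStarProjection.mem_iff hp]
      intro y hy
      rw [hrange]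
      intro x hx
      rw [VonNeumannAlgebra.mem_commutant_iff] at hy
      exact hinv y (fun z hz => (hy z hz.1.2.1).symm) x hx
    have hr' : K.starProjection ∈ M.commutant := by
      rw [VonNeumannAlgebra.IsStarProjection.mem_iff hp]
      intro y hy
      rw [VonNeumannAlgebra.commutant_commutant] at hy
      rw [hrange]
      intro x hx
      exact hinv y (fun z hz => (hz.1.2.2 y hy).symm) x hx
    rw [VonNeumannAlgebra.mem_commutant_iff] at hr'
    set e : H →L[ℂ] H := K.starProjection with he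
    have hee : e * e = e := hp.isIdempotentElem
    have hes : star e = e := hp.isSelfAdjoint
    have hw : IsCP M (1 - e) := by
      refine ⟨⟨by rw [star_sub, star_one, hes], ?_⟩, sub_mem (one_mem M) hr, ?_⟩
      · exact IsIdempotentElem.one_sub hee
      · intro a ha
        rw [sub_mul, mul_sub, one_mul, mul_one, hr' a ha]
    have hwz : (1 - e : H →L[ℂ] H) = 0 := by
      by_contra hne
      obtain ⟨z, hz1, hz2, hz3, hz4⟩ := hex _ hw hne
      apply hz2
      have hez : e * z = z := by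
        ext x
        show e (z x) = z x
        rw [he, Submodule.starProjection_eq_self_iff]
        refine U.le_topologicalClosure ((hUmem _).2 ⟨z, ⟨hz1, hz4⟩, ?_⟩)
        rw [← ContinuousLinearMap.mul_apply, hz1.1.2]
      rw [sub_mul, one_mul, hez, sub_self] at hz3
      exact hz3.symm
    intro x ε hε
    have hx : x ∈ K := by
      rw [← Submodule.starProjection_eq_self_iff, ← he, ← sub_eq_zero.1 hwz]
      rfl
    have hx' : x ∈ closure (U : Set H) := by
      rw [← Submodule.topologicalClosure_coe]; exact hx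
    obtain ⟨x', hx'U, hd⟩ := Metric.mem_closure_iff.1 hx' ε hε
    obtain ⟨z, hz, hzx⟩ := (hUmem x').1 hx'U
    refine ⟨z, hz, ?_⟩
    have h1 : x - z x = (1 - z) (x - x') := by
      simp [hzx]
    rw [h1]
    refine (norm_pr_le ?_ ?_ _).trans (by rw [← dist_eq_norm]; exact hd.le)
    · rw [star_sub, star_one, hz.1.1.1]
    · exact IsIdempotentElem.one_sub hz.1.1.2
  -- finitely many vectors
  have hfin : ∀ (s : Finset (Fin n)) (η : Fin n → H) (ε : ℝ), 0 < ε →
      ∃ z ∈ S, ∀ i ∈ s, ‖η i - z (η i)‖ ≤ ε := by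
    intro s
    induction s using Finset.induction_on with
    | empty => intro η ε _; exact ⟨0, hzS, by simp⟩
    | insert a s ha ih =>
      intro η ε hε
      obtain ⟨z1, hz1, h1⟩ := ih η ε hε
      obtain ⟨z2, hz2, h2⟩ := hdens (η a) ε hε
      have hcomm : z1 * z2 = z2 * z1 := hz1.1.2.2 z2 hz2.1.2.1
      refine ⟨_, hjoin z1 hz1 z2 hz2, ?_⟩
      intro i hi
      rcases Finset.mem_insert.1 hi with rfl | hi
      · have e1 : η i - (z1 + z2 - z1 * z2) (η i) = (1 - z1) (η i - z2 (η i)) := by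
          simp; abel
        rw [e1]
        refine (norm_pr_le ?_ ?_ _).trans h2
        · rw [star_sub, star_one, hz1.1.1.1]
        · exact IsIdempotentElem.one_sub hz1.1.1.2
      · have e1 : η i - (z1 + z2 - z1 * z2) (η i) = (1 - z2) (η i - z1 (η i)) := by
          rw [hcomm]; simp; abel
        rw [e1]
        refine (norm_pr_le ?_ ?_ _).trans (h1 i hi)
        · rw [star_sub, star_one, hz2.1.1.1]
        · exact IsIdempotentElem.one_sub hz2.1.1.2
  refine ContinuousLinearMap.opNorm_le_bound _ hC fun η => ?_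
  refine le_of_forall_pos_le_add fun δ hδ => ?_
  set ε : ℝ := δ / (‖b‖ + 1) / (n + 1) with hεd
  have hε : 0 < ε := by positivity
  obtain ⟨z, hz, hz2⟩ := hfin Finset.univ (fun i => η i) ε hε
  have h1 : ‖η - dg n z η‖ ≤ δ / (‖b‖ + 1) := by
    have h2 : ‖η - dg n z η‖ ^ 2 ≤ (δ / (‖b‖ + 1)) ^ 2 := by
      rw [PiLp.norm_sq_eq_of_L2]
      calc ∑ i, ‖(η - dg n z η) i‖ ^ 2 ≤ ∑ _i : Fin n, ε ^ 2 := by
            refine Finset.sum_le_sum fun i _ => ?_
            have h3 : (η - dg n z η) i = η i - z (η i) := by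
              rw [PiLp.sub_apply, dg_apply]
            rw [h3]
            exact pow_le_pow_left₀ (norm_nonneg _) (hz2 i (Finset.mem_univ i)) 2
        _ = n * ε ^ 2 := by simp
        _ ≤ ((n + 1) * ε) ^ 2 := by
            rw [mul_pow]
            refine mul_le_mul_of_nonneg_right ?_ (sq_nonneg _)
            have : (0 : ℝ) ≤ n := Nat.cast_nonneg n
            nlinarith
        _ = (δ / (‖b‖ + 1)) ^ 2 := by
            rw [hεd]
            congr 1
            field_simp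
    exact (abs_le_of_sq_le_sq' h2 (by positivity)).2
  have h3 : ‖dg n z η‖ ≤ ‖η‖ := by
    refine norm_pr_le ?_ ?_ η
    · rw [dg_star, hz.1.1.1]
    · rw [← dg_mul, hz.1.1.2]
  calc ‖b η‖ = ‖b (dg n z η) + b (η - dg n z η)‖ := by rw [← map_add]; congr 2; abel
    _ ≤ ‖b (dg n z η)‖ + ‖b (η - dg n z η)‖ := norm_add_le _ _
    _ ≤ C * ‖η‖ + δ := by
        refine add_le_add ((hbd z hz η).trans (mul_le_mul_of_nonneg_left h3 hC)) ?_
        refine (b.le_opNorm _).trans ?_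
        calc ‖b‖ * ‖η - dg n z η‖ ≤ ‖b‖ * (δ / (‖b‖ + 1)) :=
              mul_le_mul_of_nonneg_left h1 (norm_nonneg _)
          _ ≤ (‖b‖ + 1) * (δ / (‖b‖ + 1)) := by
              refine mul_le_mul_of_nonneg_right (by linarith) (by positivity)
          _ = δ := by
              have : (0 : ℝ) < ‖b‖ + 1 := by positivity
              field_simp

end H744R2.KZ
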